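import Mathlib
import Pool.Agent.Results.MP_28f8a1_an.HighIterates
import Pool.Agent.Helper99.LF.Base

/-!
# Compositions with high iterates of hyperbolic polynomials carry no invariant line fields

The hyperbolicity of these polynomials is due to the starting file `MP_28f8a1_an.HighIterates`, where
the statement for almost every `s` was known only under the hypothesis that the Julia set of `g` is
a null set; by `Pool.Agent.N634.LF.hyp_null` this hypothesis is always satisfied.
-/

set_option autoImplicit false

open Polynomial Filter Topology MeasureTheory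

namespace Pool.Agent.Results.MP_70a088_an.CompositionsAndIterates

open Pool.Agent.N634.LF (Rigid Hyperbolic map)
open Pool.Agent.Helper99.LF (rigid_of_hyp)

theorem deg_iter {g f : ℂ[X]} (hg : 2 ≤ g.natDegree) (hf : 1 ≤ f.natDegree) {n : ℕ} (hn : 1 ≤ n)
    (s : ℂ) : 2 ≤ (f.comp (g.comp^[n] X) + C s).natDegree := by
  rw [natDegree_add_C, natDegree_comp]
  have h1 : (g.comp^[n] X).natDegree = g.natDegree ^ n := by
    induction n with
    | zero => simp
    | succ n ih =>
      rw [Function.iterate_succ_apply', natDegree_comp]
      rcases Nat.eq_zero_or_pos n with rfl | h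
      · simp
      · rw [ih h, pow_succ, mul_comm]
  rw [h1]
  have h2 : 2 ≤ g.natDegree ^ n := hg.trans (Nat.le_self_pow (by omega) _)
  nlinarith

/-- **Compositions with high iterates of hyperbolic polynomials carry no invariant line fields.**
`Rigid T` says that the Julia set of `T` is a null set and that `T` has no invariant line field
supported on it. Let `g` be a hyperbolic polynomial of degree at least two and `f` an ARBITRARY
nonconstant polynomial. For Lebesgue almost every complex number `s`, and for all `s` outside a meagre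
set, the polynomials `f(g^n(z)) + s` are hyperbolic and rigid for all large `n`. -/
theorem result (g : ℂ[X]) (hg : 2 ≤ g.natDegree) (hyp : Hyperbolic g) (f : ℂ[X])
    (hf : 1 ≤ f.natDegree) :
    (∀ᵐ s : ℂ, ∀ᶠ n : ℕ in atTop, Hyperbolic (f.comp (g.comp^[n] X) + C s) ∧
      Rigid (f.comp (g.comp^[n] X) + C s)) ∧
    (∀ᶠ s : ℂ in residual ℂ, ∀ᶠ n : ℕ in atTop, Hyperbolic (f.comp (g.comp^[n] X) + C s) ∧
      Rigid (f.comp (g.comp^[n] X) + C s)) := by
  have hr : ∀ (n : ℕ), 1 ≤ n → ∀ s : ℂ, Hyperbolic (f.comp (g.comp^[n] X) + C s) →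
      Rigid (f.comp (g.comp^[n] X) + C s) := fun n hn s h => rigid_of_hyp (deg_iter hg hf hn s) h
  obtain ⟨-, h2, -, h4⟩ := MP_28f8a1_an.HighIterates.result g hg hyp f hf
  refine ⟨?_, ?_⟩
  · have h0 : volume {z : ℂ | ¬ (MP_28f8a1_an.HighIterates.Escapes g z ∨
        MP_28f8a1_an.HighIterates.Attracted g z)} = 0 :=
      (Pool.Agent.N634.LF.hyp_null hg hyp).2
    filter_upwards [h4 h0] with s hs
    filter_upwards [hs, eventually_ge_atTop 1] with n hn hn1
    exact ⟨hn, hr n hn1 s hn⟩
  · filter_upwards [h2] with s hs
    filter_upwards [hs, eventually_ge_atTop 1] with n hn hn1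
    exact ⟨hn, hr n hn1 s hn⟩

end Pool.Agent.Results.MP_70a088_an.CompositionsAndIterates
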