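import Mathlib
import Pool.Agent.Results.MP_28f8a1_an.AllLawsOfRoots
import Pool.Agent.Helper99.LF.Base

/-!
# Random polynomials with independent roots have no invariant line field on the Julia set

The estimate of the probability that one polynomial is hyperbolic is that of the starting file
`MP_28f8a1_an.AllLawsOfRoots`; that the Julia set of a hyperbolic polynomial is a null set is
`Pool.Agent.N634.LF.julia_null`; the counting for sequences uses only first moments
(`Pool.Agent.Helper99.FA`).
-/

set_option autoImplicit false

open Polynomial Filter Topology MeasureTheory ProbabilityTheory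

namespace Pool.Agent.Results.MP_70a088_an.IndependentRoots

open Pool.Agent.N634.LF (Rigid)
open Pool.Agent.Helper99.LF (FewFail)

/-- The polynomial with leading coefficient `a` and roots `z i`. -/
noncomputable def withRoots {N : ℕ} (a : ℂ) (z : Fin N → ℂ) : ℂ[X] := C a * ∏ i, (X - C (z i))

/-- The laws of the roots: probability measures with density at most `D` (with respect to the area)
and support in the disc `|z| ≤ R`. -/
structure Law (D R : ℝ) (μ : Measure ℂ) : Prop where
  prob : IsProbabilityMeasure μ
  density : ∀ B : Set ℂ, MeasurableSet B → μ B ≤ ENNReal.ofReal D * volume B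
  support : μ (Metric.closedBall (0 : ℂ) R)ᶜ = 0

theorem natDegree_withRoots {N : ℕ} {a : ℂ} (ha : a ≠ 0) (z : Fin N → ℂ) :
    (withRoots a z).natDegree = N := by
  unfold withRoots
  rw [natDegree_C_mul ha, natDegree_prod_of_monic _ _ fun i _ => monic_X_sub_C _]
  simp

theorem rigid_of {N : ℕ} (hN : 2 ≤ N) {a : ℂ} (ha : a ≠ 0) {z : Fin N → ℂ}
    (h : MP_28f8a1_an.AllLawsOfRoots.Hyperbolic (withRoots a z)) : Rigid (withRoots a z) :=
  Pool.Agent.Helper99.LF.rigid_of_hyp (by rw [natDegree_withRoots ha]; exact hN) h

/-- **Random polynomials with independent roots have no invariant line field on the Julia set.**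
`Rigid T` says that the Julia set of `T` is a null set and that `T` has no invariant line field
supported on it.

Let, for every `n`, `u n 0, …, u n (n - 1)` be independent complex random variables with laws of
density at most `D` on the disc `|z| ≤ R`, not necessarily equal, and let `a n` be arbitrary complex
numbers, `a n ≠ 0`; nothing is assumed on the dependence between different `n` (for instance, the
roots of the `n`-th polynomial may be the first `n` members of one sequence). Almost surely, for every
`δ > 0` and all large `N`, at most `N ^ (255 / 256 + δ)` of the first `N` of the polynomials with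
leading coefficient `a n` and roots `u n 0, …, u n (n - 1)` are not rigid. So almost surely these
polynomials are rigid for all `n` outside a set of density zero. -/
theorem result (Ω : Type) [MeasurableSpace Ω] (P : Measure Ω) [IsProbabilityMeasure P]
    (R D : ℝ) (u : (n : ℕ) → Fin n → Ω → ℂ) (a : ℕ → ℂ) (hu : ∀ n i, AEMeasurable (u n i) P)
    (hind : ∀ n, iIndepFun (u n) P) (hlaw : ∀ n i, Law D R (P.map (u n i)))
    (ha : ∀ n, a n ≠ 0) :
    ∀ᵐ ω ∂P, ∀ δ : ℝ, 0 < δ →
      FewFail (fun n => Rigid (withRoots (a n) fun i => u n i ω))
        (fun N => (N : ℝ) ^ (255 / 256 + δ : ℝ)) := by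
  obtain ⟨K, hK, h⟩ := MP_28f8a1_an.AllLawsOfRoots.result.1 R D
  refine Pool.Agent.Helper99.LF.few (K := K) (b := 255 / 256) (by norm_num) (by norm_num) 2
    fun n hn => ?_
  have h1 : Measure.pi (fun i => P.map (u n i)) {z | ¬ Rigid (withRoots (a n) z)} ≤
      ENNReal.ofReal (K / (n : ℝ) ^ (1 / 256 : ℝ)) := by
    refine (measure_mono ?_).trans (h n hn (fun i => P.map (u n i)) (a n)
      (fun i => ⟨(hlaw n i).1, (hlaw n i).2, (hlaw n i).3⟩) (ha n))
    exact fun z hz h3 => hz (rigid_of hn (ha n) h3.1)
  refine (Pool.Agent.Helper99.LF.prob_le (hu n) (hind n) h1).trans (le_of_eq ?_)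
  rw [show (1 - 255 / 256 : ℝ) = 1 / 256 by norm_num]

end Pool.Agent.Results.MP_70a088_an.IndependentRoots
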