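import Mathlib
import Pool.Agent.Results.MP_28f8a1_an.CoefficientVolume
import Pool.Agent.Helper99.LF.Base
import Pool.Agent.Helper99.LF.Closed

/-!
# Random polynomials in coefficient space have no invariant line field on the Julia set

The estimate for one polynomial is that of the starting file `MP_28f8a1_an.CoefficientVolume`; that the
Julia set of a hyperbolic polynomial is a null set is `Pool.Agent.N634.LF.julia_null`.
-/

set_option autoImplicit false

open Polynomial Filter Topology MeasureTheory ProbabilityTheory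

namespace Pool.Agent.Results.MP_70a088_an.RandomCoefficients

open Pool.Agent.N634.LF (Rigid)

/-- The monic polynomial `X ^ N + a (N - 1) X ^ (N - 1) + … + a 0`. -/
noncomputable def withCoeffs {N : ℕ} (a : Fin N → ℂ) : ℂ[X] :=
  X ^ N + ∑ k : Fin N, C (a k) * X ^ (k : ℕ)

/-- The coefficient vectors of the monic polynomials of degree `N` all of whose roots lie in the
closed disc with centre `p` and radius `ρ`. -/
def RootsInDisc (p : ℂ) (ρ : ℝ) (N : ℕ) : Set (Fin N → ℂ) :=
  {a | ∀ x : ℂ, (withCoeffs a).eval x = 0 → ‖x - p‖ ≤ ρ}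

/-- All the multiples `α T`, `1 / A ≤ |α| ≤ A`, are rigid. -/
def AllMultiplesRigid (A : ℝ) (T : ℂ[X]) : Prop :=
  ∀ α : ℂ, 1 / A ≤ ‖α‖ → ‖α‖ ≤ A → Rigid (C α * T)

theorem sub_bad {A : ℝ} (hA : 1 ≤ A) {N : ℕ} (hN : 2 ≤ N) {a : Fin N → ℂ}
    (h : ¬ AllMultiplesRigid A (withCoeffs a)) : ∃ α : ℂ, 1 / A ≤ ‖α‖ ∧ ‖α‖ ≤ A ∧
      ¬ MP_28f8a1_an.CoefficientVolume.Hyperbolic
        (C α * MP_28f8a1_an.CoefficientVolume.withCoeffs a) := by
  unfold AllMultiplesRigid at h
  push Not at h
  obtain ⟨α, h1, h2, h3⟩ := h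
  refine ⟨α, h1, h2, fun h4 => h3 ?_⟩
  have hα : α ≠ 0 := by
    rintro rfl
    rw [norm_zero] at h1
    have : 0 < 1 / A := by positivity
    linarith
  refine Pool.Agent.Helper99.LF.rigid_of_hyp ?_ h4
  have h5 := (Pool.Agent.Helper99.LF.mon_spec a).2
  have h6 : withCoeffs a = Pool.Agent.Helper99.LF.mon a := rfl
  rw [natDegree_C_mul hα, h6, h5]
  exact hN

/-- **Random polynomials in coefficient space have no invariant line field on the Julia set.**
`Rigid T` says that the Julia set of `T` is a null set and that `T` has no invariant line field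
supported on it.

Let `p` be a complex number and `ρ > 0`, `ρ ≠ 1`, and `|p| ≠ 1` if `ρ < 1`. Let, for every `N`, `v N`
be a random vector with the uniform distribution (Lebesgue measure on `ℂ ^ N`) on the set of the
coefficient vectors of the monic polynomials of degree `N` with all roots in the disc with centre `p`
and radius `ρ`; nothing is assumed on the dependence between different `N`. Almost surely, for every
`A ≥ 1`, ALL the multiples `α T_N`, `1 / A ≤ |α| ≤ A`, of ALL the polynomials `T_N` with coefficients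
`v N`, `N` large, are rigid. -/
theorem result (p : ℂ) (ρ : ℝ) (hρ : 0 < ρ) (hρ1 : ρ ≠ 1) (hp : ρ < 1 → ‖p‖ ≠ 1)
    (Ω : Type) [MeasurableSpace Ω] (P : Measure Ω) [IsProbabilityMeasure P]
    (v : (N : ℕ) → Ω → Fin N → ℂ) (hv : ∀ N, AEMeasurable (v N) P)
    (hlaw : ∀ N, P.map (v N) = (volume (RootsInDisc p ρ N))⁻¹ •
      (volume : Measure (Fin N → ℂ)).restrict (RootsInDisc p ρ N)) :
    ∀ᵐ ω ∂P, ∀ A : ℝ, 1 ≤ A → ∀ᶠ N in atTop, AllMultiplesRigid A (withCoeffs (v N ω)) := by
  have key : ∀ j : ℕ, ∀ᵐ ω ∂P, ∀ᶠ N in atTop, AllMultiplesRigid (j + 1) (withCoeffs (v N ω)) := by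
    intro j
    have hj1 : (1 : ℝ) ≤ j + 1 := by
      have : (0 : ℝ) ≤ j := Nat.cast_nonneg j
      linarith
    obtain ⟨K, θ, hK, hθ, hθ1, h⟩ := MP_28f8a1_an.CoefficientVolume.result p ρ (j + 1) hρ hρ1 hp hj1
    set E : (N : ℕ) → Set (Fin N → ℂ) := fun N => {a | ¬ AllMultiplesRigid (j + 1) (withCoeffs a)}
      with hE
    have hb : ∀ N : ℕ, 2 ≤ N → P {ω | v N ω ∈ E N} ≤ ENNReal.ofReal (K * θ ^ N) := by
      intro N hN
      obtain ⟨h1, h2, h3⟩ := h N
      change volume (RootsInDisc p ρ N) ≠ 0 at h1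
      change volume (RootsInDisc p ρ N) ≠ ⊤ at h2
      have hcl : MeasurableSet (RootsInDisc p ρ N) :=
        (Pool.Agent.Helper99.LF.isClosed_roots p ρ N).measurableSet
      refine (Measure.le_map_apply (hv N) _).trans ?_
      rw [hlaw N, Measure.smul_apply, smul_eq_mul, Measure.restrict_apply' hcl]
      have h5 : volume (E N ∩ RootsInDisc p ρ N) ≤
          ENNReal.ofReal (K * θ ^ N) * volume (RootsInDisc p ρ N) := by
        refine (measure_mono ?_).trans h3
        rintro a ⟨ha1, ha2⟩
        exact ⟨ha2, sub_bad hj1 hN ha1⟩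
      calc (volume (RootsInDisc p ρ N))⁻¹ * _ ≤ (volume (RootsInDisc p ρ N))⁻¹ *
            (ENNReal.ofReal (K * θ ^ N) * volume (RootsInDisc p ρ N)) := by gcongr
        _ = ENNReal.ofReal (K * θ ^ N) *
            ((volume (RootsInDisc p ρ N))⁻¹ * volume (RootsInDisc p ρ N)) := by ring
        _ = ENNReal.ofReal (K * θ ^ N) := by
            rw [ENNReal.inv_mul_cancel h1 h2, mul_one]
    have hsum : Summable fun N : ℕ => K * θ ^ N :=
      (summable_geometric_of_lt_one hθ.le hθ1).mul_left K
    have h5 : ∑' N : ℕ, P {ω | 2 ≤ N ∧ v N ω ∈ E N} ≠ ⊤ := by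
      refine ne_top_of_le_ne_top hsum.tsum_ofReal_ne_top (ENNReal.tsum_le_tsum fun N => ?_)
      rcases lt_or_ge N 2 with hN | hN
      · have : {ω | 2 ≤ N ∧ v N ω ∈ E N} = ∅ := by
          ext ω
          simp only [Set.mem_ofPred_eq, Set.mem_empty_iff_false, iff_false, not_and]
          omega
        rw [this, measure_empty]
        exact bot_le
      · refine (measure_mono ?_).trans (hb N hN)
        exact fun ω hω => hω.2
    filter_upwards [ae_eventually_notMem h5] with ω hω
    filter_upwards [hω, eventually_ge_atTop 2] with N h6 hN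
    by_contra hcon
    exact h6 ⟨hN, hcon⟩
  filter_upwards [ae_all_iff.2 key] with ω hω A hA
  obtain ⟨j, hj⟩ := exists_nat_ge A
  filter_upwards [hω j] with N hN
  intro α h1 h2
  have hj1 : A ≤ (j : ℝ) + 1 := by linarith
  exact hN α ((one_div_le_one_div_of_le (by linarith) hj1).trans h1) (h2.trans hj1)

end Pool.Agent.Results.MP_70a088_an.RandomCoefficients
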