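import Mathlib
import Pool.Agent.Results.MP_28f8a1_an.RootScaling
import Pool.Agent.Helper99.LF.ScalSeq

/-!
# Polynomials with rescaled roots carry no invariant line fields

The hyperbolicity estimate for one polynomial is that of the starting file
`MP_28f8a1_an.RootScaling`; that the Julia set of a hyperbolic polynomial is a null set is
`Pool.Agent.N634.LF.julia_null`.
-/

set_option autoImplicit false

open Polynomial Filter Topology MeasureTheory

namespace Pool.Agent.Results.MP_70a088_an.ScalingsAndScales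

open Pool.Agent.N634.LF (Rigid)
open Pool.Agent.Helper99.LF (FewFail rigid_of_hyp)

/-- The monic polynomial with roots `z i`. -/
noncomputable def withRoots {N : ℕ} (z : Fin N → ℂ) : ℂ[X] := ∏ i, (X - C (z i))

/-- The numbers `z i` are not zero, and the ratios of their moduli are at most `L`. -/
def Comparable {N : ℕ} (L : ℝ) (z : Fin N → ℂ) : Prop :=
  (∀ i, z i ≠ 0) ∧ ∀ i j, ‖z i‖ ≤ L * ‖z j‖

theorem natDegree_withRoots {N : ℕ} (z : Fin N → ℂ) : (withRoots z).natDegree = N := by
  unfold withRoots
  rw [natDegree_prod_of_monic _ _ fun i _ => monic_X_sub_C _]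
  simp

theorem rigid_roots {N : ℕ} (hN : 2 ≤ N) {z : Fin N → ℂ}
    (h : MP_28f8a1_an.RootScaling.Hyperbolic (withRoots z)) : Rigid (withRoots z) :=
  rigid_of_hyp (by rw [natDegree_withRoots]; exact hN) h

theorem one_le {N : ℕ} (hN : 2 ≤ N) {L : ℝ} {z : Fin N → ℂ} (hz : Comparable L z) : 1 ≤ L := by
  have h := hz.2 ⟨0, by omega⟩ ⟨0, by omega⟩
  have h0 : 0 < ‖z ⟨0, by omega⟩‖ := norm_pos_iff.2 (hz.1 _)
  by_contra hc
  nlinarith

theorem log_nonneg' {N : ℕ} (hN : 2 ≤ N) {L : ℝ} (hL : 1 ≤ L) : 0 ≤ Real.log (N * L) := by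
  have h2 : (2 : ℝ) ≤ N := by exact_mod_cast hN
  exact Real.log_nonneg (by nlinarith)

/-- **Polynomials with rescaled roots carry no invariant line fields.** `Rigid T` says that the Julia
set of `T` is a null set and that `T` has no invariant line field supported on it.

Let `z k 1, …, z k (d k)`, `d k ≥ 2`, be ARBITRARY nonzero complex numbers whose moduli have ratios at
most `L k`, let `b k ≠ 0`, `m k ≥ 1` and `s k = log (d k * L k) / (√(d k) * m k)`. If the sum of the
`s k` is finite then for Lebesgue almost every complex number `κ` the monic polynomials with the roots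
`κ ^ (m k) b_k z k i` are rigid for all large `k`. If it is infinite and `s` is bounded then for almost
every `κ`, for all `δ > 0` and all large `N`, at most `(∑_{k < N} s k) ^ (1 + δ)` of the first `N` of
these polynomials are not rigid. For instance (`m k = 1`), if `L k` is bounded and the degrees grow at
least like `k ^ (2 + η)`, `η > 0`, then for almost every `κ` the polynomials with the roots `κ z k i`
are rigid for all large `k`. -/
theorem result :
    ∀ (d : ℕ → ℕ) (z : ∀ k, Fin (d k) → ℂ) (L : ℕ → ℝ) (b : ℕ → ℂ) (m : ℕ → ℕ) (s : ℕ → ℝ),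
      (∀ k, 2 ≤ d k) → (∀ k, Comparable (L k) (z k)) → (∀ k, b k ≠ 0) → (∀ k, 1 ≤ m k) →
      (∀ k, s k = Real.log (d k * L k) / (Real.sqrt (d k) * m k)) →
      (Summable s → ∀ᵐ κ : ℂ, ∀ᶠ k in atTop,
        Rigid (withRoots fun i => κ ^ m k * b k * z k i)) ∧
      (¬ Summable s → (∃ c, ∀ k, s k ≤ c) → ∀ᵐ κ : ℂ, ∀ δ : ℝ, 0 < δ →
        FewFail (fun k => Rigid (withRoots fun i => κ ^ m k * b k * z k i))
          (fun N => (∑ k ∈ Finset.range N, s k) ^ (1 + δ))) := by
  intro d z L b m s hd hz hb hm hs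
  have hr : ∀ k, 0 ≤ Real.log (d k * L k) / Real.sqrt (d k) := fun k =>
    div_nonneg (log_nonneg' (hd k) (one_le (hd k) (hz k))) (Real.sqrt_nonneg _)
  have hE : ∀ k, Pool.Agent.Helper99.FA.la {κ : ℂ | ¬ Rigid (withRoots fun i => κ * z k i)} ≤
      ENNReal.ofReal (720 * (Real.log (d k * L k) / Real.sqrt (d k))) := by
    intro k
    have h1 := (MP_28f8a1_an.RootScaling.result.1 (d k) (hd k) (z k) (L k) (hz k).1 (hz k).2).1
    rw [← mul_div_assoc]
    refine (measure_mono ?_).trans h1
    exact fun κ hκ h3 => hκ (rigid_roots (hd k) h3)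
  obtain ⟨h1, h2⟩ := Pool.Agent.Helper99.LF.scal_seq
    (s := s) (E := fun k => {κ : ℂ | ¬ Rigid (withRoots fun i => κ * z k i)})
    (r := fun k => Real.log (d k * L k) / Real.sqrt (d k)) (c := 720) (by norm_num) hr hE hb hm
    (fun k => by rw [hs k, div_div])
  refine ⟨fun h => ?_, fun h h' => ?_⟩
  · filter_upwards [h1 h] with α hα
    filter_upwards [hα] with k hk
    by_contra hcon
    exact hk hcon
  · filter_upwards [h2 h h'] with α hα δ hδ
    have h3 := hα δ hδ
    simpa only [Set.mem_ofPred_eq, not_not] using h3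

end Pool.Agent.Results.MP_70a088_an.ScalingsAndScales
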